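import Pool.Agent.Y709.Ten.Stm

/-!
The fibre of a pencil and of the opposite pencil (task F12 of the project Ten).
-/

set_option autoImplicit false
set_option linter.unusedSectionVars false

open Polynomial

namespace Pool.Agent.Y151.Ten

open Pool.Agent.W313.Hyp Pool.Agent.W343.BSD Pool.Agent.Y709 Pool.Agent.Y709.Gen
  Pool.Agent.Y709.Ten

theorem intg_base {k A : Type} [Field k] [Field A] [Algebra k A] (H : A[X]) :
    intg k H = intg A H := by
  ext i
  rcases i with _ | i
  · rw [coeff_intg_zero, coeff_intg_zero]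
  · rw [coeff_intg_succ, coeff_intg_succ]
    congr 1
    rw [map_inv₀, map_add, map_natCast, map_one]
    rfl

theorem phi_base {k A κ : Type} [Field k] [Field A] [Algebra k A] [Fintype κ] [DecidableEq κ]
    (b : κ → A) (m : κ → ℕ) (o : κ) : phi k b m o = phi A b m o := by
  unfold phi
  refine Matrix.ext fun i j => ?_
  rw [Matrix.of_apply, Matrix.of_apply, intg_base (k := k)]

section block

variable {R : Type} [CommRing R] {r : ℕ}

/-- the lower right block -/
def low (P : Matrix (Fin (r + 1)) (Fin (r + 1)) R) : Matrix (Fin r) (Fin r) R :=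
  P.submatrix Fin.succ Fin.succ

theorem mprod_low (N : ℕ → Matrix (Fin (r + 1)) (Fin (r + 1)) R) (hN : ∀ j l, N j 0 l = 0)
    (d : ℕ) : (∀ l : Fin r, mprod N d 0 l.succ = 0) ∧ low (mprod N d) = mprod (fun j => low (N j)) d := by
  induction d with
  | zero =>
    refine ⟨fun l => ?_, ?_⟩
    · change (1 : Matrix (Fin (r + 1)) (Fin (r + 1)) R) 0 l.succ = 0
      rw [Matrix.one_apply_ne (Fin.succ_ne_zero l).symm]
    · change low (1 : Matrix (Fin (r + 1)) (Fin (r + 1)) R) = 1
      unfold low
      exact Matrix.submatrix_one _ (Fin.succ_injective r)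
  | succ d ih =>
    refine ⟨fun l => ?_, ?_⟩
    · rw [mprod_succ, Matrix.mul_apply]
      refine Finset.sum_eq_zero fun i _ => ?_
      rw [hN, zero_mul]
    · rw [mprod_succ, mprod_succ]
      refine Matrix.ext fun i j => ?_
      rw [← ih.2, Matrix.mul_apply]
      change (N d * mprod N d) i.succ j.succ = _
      rw [Matrix.mul_apply, Fin.sum_univ_succ, ih.1, mul_zero, zero_add]
      rfl

theorem charpolyRev_low (P : Matrix (Fin (r + 1)) (Fin (r + 1)) R) (hP : ∀ l, P 0 l = 0) :
    P.charpolyRev = (low P).charpolyRev := by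
  unfold Matrix.charpolyRev
  rw [Matrix.det_succ_row_zero, Fin.sum_univ_succ]
  have h1 : ∀ l : Fin (r + 1), (1 - (X : R[X]) • P.map C) 0 l = if l = 0 then 1 else 0 := by
    intro l
    rw [Matrix.sub_apply, Matrix.smul_apply, Matrix.map_apply, hP, C_0, smul_zero, sub_zero,
      Matrix.one_apply]
    simp only [eq_comm]
  rw [h1, if_pos rfl]
  have h2 : ∑ i : Fin r, (-1 : R[X]) ^ (((Fin.succ i : Fin (r + 1)) : ℕ)) *
      (1 - (X : R[X]) • P.map C) 0 i.succ *
      ((1 - (X : R[X]) • P.map C).submatrix Fin.succ i.succ.succAbove).det = 0 := by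
    refine Finset.sum_eq_zero fun i _ => ?_
    rw [h1, if_neg (Fin.succ_ne_zero i), mul_zero, zero_mul]
  rw [h2, add_zero, Fin.val_zero, pow_zero, one_mul, one_mul]
  congr 1
  refine Matrix.ext fun i j => ?_
  rw [Matrix.submatrix_apply, Matrix.sub_apply, Matrix.sub_apply, Matrix.smul_apply,
    Matrix.smul_apply, Matrix.map_apply, Matrix.map_apply, Fin.succAbove_zero, Matrix.one_apply,
    Matrix.one_apply]
  unfold low
  rw [Matrix.submatrix_apply]
  simp only [Fin.succ_inj]

end block

section mn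

variable {F : Type} [Field F] {r : ℕ}

theorem charpolyRev_phi {k : Type} [Field k] [Algebra k F] (B : ℕ → Fin (r + 1) → F)
    (m : Fin (r + 1) → ℕ) {d : ℕ} (hd : 0 < d) :
    (mprod (fun j => phi k (B j) m 0) d).charpolyRev =
      (mprod (fun j => mn (B j) m) d).charpolyRev := by
  obtain ⟨hl1, hl2⟩ := mprod_low (fun j => phi k (B j) m 0)
    (fun j l => phi_row k (B j) m rfl l) d
  rw [charpolyRev_low]
  · rw [hl2]
    congr 2
    funext j
    refine Matrix.ext fun i l => ?_
    unfold low mn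
    rw [Matrix.submatrix_apply, Matrix.of_apply, phi_base]
  · intro l
    obtain ⟨e, rfl⟩ : ∃ e, d = e + 1 := ⟨d - 1, by omega⟩
    rw [mprod_succ, Matrix.mul_apply]
    refine Finset.sum_eq_zero fun i _ => ?_
    rw [phi_row k _ _ rfl, zero_mul]

theorem det_mn {k : Type} [Field k] [Algebra k F] {p f q : ℕ} [hp : Fact p.Prime] [CharP F p]
    (hq : q = p ^ f) (hf : 0 < f) {β : Fin (r + 1) → F} (hβ : Function.Injective β)
    {m : Fin (r + 1) → ℕ} (hm : ∀ i, 0 < m i) (hmq : ∀ i, m i < q)
    (hinv : ∀ i : ℕ, i < ∑ l, m l → ((i : k) + 1) ≠ 0) : (mn β m).det ≠ 0 := by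
  intro h1
  obtain ⟨v, hv0, hv⟩ := Matrix.exists_mulVec_eq_zero_iff.2 h1
  let u : Fin (r + 1) → F := Fin.cons 0 v
  have hu0 : u 0 = 0 := rfl
  have hus : ∀ i : Fin r, u i.succ = v i := fun i => rfl
  have hker : (phi k β m 0).mulVec u = 0 := by
    funext i
    rw [Pi.zero_apply, Matrix.mulVec, dotProduct]
    refine Fin.cases ?_ (fun i => ?_) i
    · refine Finset.sum_eq_zero fun j _ => ?_
      rw [phi_row k _ _ rfl, zero_mul]
    · rw [Fin.sum_univ_succ, hu0, mul_zero, zero_add]
      have h3 := congrFun hv i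
      rw [Pi.zero_apply, Matrix.mulVec, dotProduct] at h3
      rw [← h3]
      refine Finset.sum_congr rfl fun j _ => ?_
      rw [hus, phi_base]
      rfl
  have h5 := phi_ker (k := k) hq hf (Fintype.card_fin (r + 1)) hβ hm hmq hinv 0 u hu0 hker
  apply hv0
  funext i
  rw [← hus, h5]
  rfl

theorem mprod_invT {κ : Type} [Fintype κ] [DecidableEq κ] (N : ℕ → Matrix κ κ F) (d : ℕ) :
    mprod (fun j => ((N j)⁻¹).transpose) d = ((mprod N d)⁻¹).transpose := by
  induction d with
  | zero =>
    change (1 : Matrix κ κ F) = ((1 : Matrix κ κ F)⁻¹).transpose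
    rw [inv_one, Matrix.transpose_one]
  | succ d ih =>
    rw [mprod_succ, mprod_succ, ih, ← Matrix.transpose_mul, Matrix.mul_inv_rev]

theorem det_mprod {κ : Type} [Fintype κ] [DecidableEq κ] (N : ℕ → Matrix κ κ F)
    (hN : ∀ j, (N j).det ≠ 0) (d : ℕ) : (mprod N d).det ≠ 0 := by
  induction d with
  | zero =>
    change (1 : Matrix κ κ F).det ≠ 0
    rw [Matrix.det_one]
    exact one_ne_zero
  | succ d ih =>
    rw [mprod_succ, Matrix.det_mul]
    exact mul_ne_zero (hN d) ih

theorem charpolyRev_coeff_zero' {κ : Type} [Fintype κ] [DecidableEq κ] (A : Matrix κ κ F) :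
    A.charpolyRev.coeff 0 = 1 := by
  have h1 := coeff_charpolyRev_eq A rfl (Nat.zero_le (Fintype.card κ))
  rw [Nat.sub_zero] at h1
  rw [h1]
  have h2 := A.charpoly_monic
  have h3 := A.charpoly_natDegree_eq_dim
  rw [← h3]
  exact h2

theorem charpolyRev_coeff_big {κ : Type} [Fintype κ] [DecidableEq κ] (A : Matrix κ κ F) {j : ℕ}
    (hj : Fintype.card κ < j) : A.charpolyRev.coeff j = 0 := by
  apply coeff_eq_zero_of_natDegree_lt
  rw [← Matrix.reverse_charpoly]
  refine (reverse_natDegree_le _).trans_lt ?_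
  rwa [Matrix.charpoly_natDegree_eq_dim]

/-- duality of the characteristic polynomials -/
theorem charpolyRev_dual {κ ι : Type} [Fintype κ] [DecidableEq κ] [Fintype ι] [DecidableEq ι]
    {A : Matrix κ κ F} {M : Matrix ι ι F} {n : ℕ} (hκ : Fintype.card κ = n)
    (hι : Fintype.card ι = n) (hA : A.det ≠ 0) (hM : M.det ≠ 0)
    (h : M.charpolyRev = (A⁻¹).charpolyRev) : A.charpolyRev = (M⁻¹).charpolyRev := by
  ext j
  by_cases hj : j ≤ n
  · have h1 : ∀ i, i ≤ n → (A⁻¹).charpolyRev.coeff i * A.charpolyRev.coeff n =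
        A.charpolyRev.coeff (n - i) := by
      intro i hi
      have := coeff_charpolyRev_inv hA 1 hκ hi
      rwa [one_smul, one_pow, one_mul] at this
    have h2 : (M⁻¹).charpolyRev.coeff j * M.charpolyRev.coeff n =
        M.charpolyRev.coeff (n - j) := by
      have := coeff_charpolyRev_inv hM 1 hι hj
      rwa [one_smul, one_pow, one_mul] at this
    rw [h] at h2
    have h3 := h1 n le_rfl
    rw [Nat.sub_self, charpolyRev_coeff_zero'] at h3
    have h4 := h1 (n - j) (Nat.sub_le _ _)
    rw [Nat.sub_sub_self hj] at h4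
    rw [← h4, ← h2, mul_assoc, h3, mul_one]
  · rw [charpolyRev_coeff_big A (by omega), charpolyRev_coeff_big _ (by omega)]

end mn

section chi

variable {k F R : Type} [Field k] [Fintype k] [Field F] [Algebra k F] [CommRing R]
  [FiniteDimensional k F]

theorem chiN_pow_card {q : ℕ} (hk : Fintype.card k = q) (χ : MulChar k R) :
    (chiN F χ) ^ (q - 1) = 1 := by
  have h1 : χ ^ (q - 1) = 1 := by
    apply MulChar.ext
    intro a
    rw [MulChar.pow_apply_coe, ← map_pow, ← hk,
      FiniteField.pow_card_sub_one_eq_one (a : k) a.ne_zero, map_one, MulChar.one_apply_coe]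
  rw [chiN_pow, h1]
  apply MulChar.ext
  intro a
  rw [chiN_apply, MulChar.one_apply_coe]
  have h2 : IsUnit (Algebra.norm k (a : F)) := a.isUnit.map _
  rw [MulChar.one_apply h2]

end chi

section coeffs

variable {F : Type} [Field F] [Fintype F] {ι : Type} [Fintype ι] [DecidableEq ι]

/-- the sums over the monic polynomials and the matrix of the opposite pencil -/
theorem mon_coeff {p f q d n : ℕ} [Fact p.Prime] [CharP F p] (hq : q = p ^ f) (h5 : 5 ≤ q)
    (hd : 0 < d) (hF : Fintype.card F = q ^ d) (hn : Fintype.card ι = n + 1) (β : ι → F)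
    {μ : ι → ℕ} (hμ : ∀ l, 0 < μ l) (hμq : ∀ l, μ l < q - 1) (hμ0 : 0 < ∑ l, μ l) (j : ℕ) :
    monSum (fun h : F[X] => ∏ l, (h.eval (β l)) ^ ((q - 1 - μ l) * nex q d)) j =
      (((-1 : F) ^ (∑ i, μ i)) ^ nex q d) ^ j *
        (mprod (fun j => Am q n (cjb q β j) μ) d).charpolyRev.coeff j := by
  have hμq' : ∀ l, μ l < q := fun l => lt_of_lt_of_le (hμq l) (Nat.sub_le _ _)
  rw [monSum_coeff β _ n ?_ j]
  · rw [sign_eq hq hμq', hF, kmat_prod hq (by omega) hn β hμq' hμ]
    set A := mprod (fun j => Am q n (cjb q β j) μ) d with hA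
    set s1 : F := ((-1) ^ (∑ i, μ i)) ^ nex q d with hs1
    unfold Matrix.charpolyRev
    have h1 : (X : F[X]) • (s1 • A).map C = (C s1 * X) • A.map C := by
      refine Matrix.ext fun i j => ?_
      rw [Matrix.smul_apply, Matrix.smul_apply, Matrix.map_apply, Matrix.map_apply,
        Matrix.smul_apply, smul_eq_mul, smul_eq_mul, smul_eq_mul, C_mul]
      ring
    have h2 : (1 - (C s1 * X : F[X]) • A.map C).det =
        ((1 - (X : F[X]) • A.map C).det).comp (C s1 * X) := by
      rw [← coe_compRingHom_apply, RingHom.map_det]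
      congr 1
      refine Matrix.ext fun i j => ?_
      rw [RingHom.mapMatrix_apply, Matrix.map_apply, Matrix.sub_apply, Matrix.sub_apply,
        Matrix.smul_apply, Matrix.smul_apply, Matrix.map_apply, coe_compRingHom_apply, sub_comp,
        smul_eq_mul, smul_eq_mul, mul_comp, X_comp, C_comp, Matrix.one_apply]
      split_ifs
      · rw [one_comp]
      · rw [zero_comp]
    rw [h1, h2, comp_C_mul_X_coeff, mul_comm]
  · have h1 : ∑ l, (q - 1 - μ l) + ∑ l, μ l = (n + 1) * (q - 1) := by
      rw [← Finset.sum_add_distrib]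
      have h2 : ∀ l, q - 1 - μ l + μ l = q - 1 := by
        intro l
        have := hμq l
        omega
      rw [Finset.sum_congr rfl fun l _ => h2 l, Finset.sum_const, smul_eq_mul,
        Finset.card_univ, hn]
    rw [← Finset.sum_mul, hF, ← nex_mul (by omega)]
    have h3 : ∑ l, (q - 1 - μ l) < (n + 1) * (q - 1) := by omega
    calc (∑ l, (q - 1 - μ l)) * nex q d < ((n + 1) * (q - 1)) * nex q d :=
          Nat.mul_lt_mul_of_pos_right h3 (nex_pos (by omega) hd)
      _ = _ := by ring

end coeffs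

theorem fibrePlus : FibrePlus := by
  intro k F R K _ _ _ _ _ _ _ _ _ π σ χ hχ hu p f q d r _ _ hq hf hk h5 hd hF m hm hmq hinv b
  obtain ⟨P, hP0, hP1, hP2⟩ := fibre_feG π σ χ hχ hu hq hf hk h5 hd hF hm hmq hinv 1 b 0
  refine ⟨P, hP0, ?_, ?_⟩
  · rw [C_1, one_mul] at hP1
    exact hP1
  · rw [hP2]
    congr 1
    simp only [one_pow, one_smul]
    exact charpolyRev_phi (fun j => cjb q b j) m hd

theorem fibreMinus : FibreMinus := by
  intro k F R K _ _ _ _ _ _ _ _ _ π σ χ hχ hu p f q d r _ _ hq hf hk h5 hd hF m hm hmq hinv b hb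
  classical
  have hmle : ∀ l, m l ≤ ∑ i, m i := fun l =>
    Finset.single_le_sum (f := m) (fun _ _ => Nat.zero_le _) (Finset.mem_univ l)
  have hmq1 : ∀ l, m l < q - 1 := fun l => (hmle l).trans_lt hmq
  have hmq' : ∀ l, m l < q := fun l => lt_of_lt_of_le (hmq1 l) (Nat.sub_le _ _)
  have hm0 : 0 < ∑ i, m i := Finset.sum_pos (fun i _ => hm i) ⟨0, Finset.mem_univ _⟩
  have hdet : ∀ j, (mn (cjb q b j) m).det ≠ 0 := fun j =>
    det_mn (k := k) hq hf (cjb_inj hq hb j) hm hmq' hinv
  refine ⟨hdet, ?_⟩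
  have hper : cjb q b d = b := by
    funext i
    unfold cjb
    rw [← hF, FiniteField.pow_card]
  have hcard : Fintype.card (Fin (r + 1)) = r + 1 := Fintype.card_fin _
  -- the matrices
  set A := mprod (fun j => Am q r (cjb q b j) m) d with hA
  obtain ⟨hdetA, hchar⟩ := charpoly_chain (k := k) hq hf hd hcard hb hper hm hmq' hinv 0 1
  rw [← hA] at hdetA hchar
  rw [one_smul, one_smul, charpolyRev_phi (fun j => cjb q b j) m hd] at hchar
  have hcardA : Fintype.card (Fin r × Unit) = r := by
    rw [Fintype.card_prod, Fintype.card_fin, Fintype.card_unit, mul_one]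
  have hdual : A.charpolyRev =
      (mprod (fun j => ((mn (cjb q b j) m)⁻¹).transpose) d).charpolyRev := by
    rw [mprod_invT, charpolyRev_transpose]
    exact charpolyRev_dual hcardA (Fintype.card_fin r) hdetA (det_mprod _ hdet d) hchar
  rw [← hdual]
  -- the sums
  set ψ := chiN F χ with hψ
  set m' : Fin (r + 1) → ℕ := fun i => q - 1 - m i with hm'
  set ch : F := (-1) ^ (∑ i, m' i) * 1 with hch
  have hsum : ∑ i, m' i + ∑ i, m i = (r + 1) * (q - 1) := by
    rw [← Finset.sum_add_distrib]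
    have h2 : ∀ l, m' l + m l = q - 1 := by
      intro l
      have := hmq1 l
      simp only [hm']
      omega
    rw [Finset.sum_congr rfl fun l _ => h2 l, Finset.sum_const, smul_eq_mul,
      Finset.card_univ, hcard]
  have hm'0 : 0 < ∑ i, m' i := by
    have h1 : 1 * (q - 1) ≤ (r + 1) * (q - 1) := Nat.mul_le_mul_right _ (by omega)
    omega
  have hψn : ψ ^ (∑ i, m' i) ≠ 1 := by
    intro h1
    have h2 : ψ ^ (∑ i, m i) ≠ 1 := chiN_pow_ne π σ χ hχ hk hF hd hm0 hmq
    apply h2
    have h3 : ψ ^ ((r + 1) * (q - 1)) = 1 := by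
      rw [mul_comm, pow_mul, hψ, chiN_pow_card hk, one_pow]
    rw [← hsum, pow_add, h1, one_mul] at h3
    exact h3
  have hbig : ∀ j, r < j → monSum (psiG ψ ch b m') j = 0 := by
    intro j hj
    have hdeg : (∏ l : Fin (r + 1), (X - C (b l))).natDegree = r + 1 := by
      rw [natDegree_prod_of_monic _ _ fun l _ => monic_X_sub_C _]
      simp only [natDegree_X_sub_C]
      rw [Finset.sum_const, smul_eq_mul, mul_one, Finset.card_univ, hcard]
    refine monSum_zero' ch b hm'0 hψn (∏ l : Fin (r + 1), (X - C (b l)))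
      (monic_prod_of_monic _ _ fun l _ => monic_X_sub_C _) ?_ ?_
    · intro i
      rw [eval_prod]
      refine Finset.prod_eq_zero (Finset.mem_univ i) ?_
      rw [eval_sub, eval_X, eval_C]
      exact sub_self _
    · rw [hdeg]
      omega
  set s1 : F := ((-1) ^ (∑ i, m i)) ^ nex q d with hs1
  have hs1' : s1 * s1 = 1 := by
    rw [hs1, ← mul_pow, ← mul_pow]
    simp
  have hchn : ch ^ nex q d = s1 := by
    rw [hch, mul_one, ← pow_mul, Finset.sum_mul]
    exact sign_eq hq hmq' d
  have hred : ∀ j, π (monSum (psiG ψ ch b m') j) = σ (A.charpolyRev.coeff j) := by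
    intro j
    have h1 : π (monSum (psiG ψ ch b m') j) = σ (s1 ^ j *
        monSum (fun h : F[X] => ∏ l, (h.eval (b l)) ^ ((q - 1 - m l) * nex q d)) j) := by
      unfold monSum
      rw [map_sum, Finset.mul_sum, map_sum]
      refine Finset.sum_congr rfl fun h hh => ?_
      rw [Set.Finite.mem_toFinset] at hh
      unfold psiG
      rw [hψ, red_chi π σ χ hχ hk hF]
      congr 1
      rw [hh.2, mul_pow, ← pow_mul, mul_comm j, pow_mul, hchn]
      congr 1
      unfold Gen.mp
      rw [← Finset.prod_pow]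
      refine Finset.prod_congr rfl fun l _ => ?_
      rw [← pow_mul]
    rw [h1, mon_coeff hq h5 hd hF hcard b hm hmq1 hm0 j, ← hs1, ← hA, ← mul_assoc, ← mul_pow,
      hs1', one_pow, one_mul]
  have hcoeff : ∀ j, (∑ i ∈ Finset.range (r + 1), C (monSum (psiG ψ ch b m') i) * X ^ i :
      R[X]).coeff j = if j ≤ r then monSum (psiG ψ ch b m') j else 0 := by
    intro j
    rw [finsetSum_coeff]
    simp only [coeff_C_mul, coeff_X_pow, mul_ite, mul_one, mul_zero]
    rw [Finset.sum_ite_eq]
    simp only [Finset.mem_range, Nat.lt_succ_iff]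
  have hcoeff' : ∀ j, (∑ i ∈ Finset.range (r + 1), C (monSum (psiG ψ ch b m') i) * X ^ i :
      R[X]).coeff j = monSum (psiG ψ ch b m') j := by
    intro j
    rw [hcoeff]
    split_ifs with h
    · rfl
    · rw [hbig j (by omega)]
  refine ⟨∑ i ∈ Finset.range (r + 1), C (monSum (psiG ψ ch b m') i) * X ^ i, ?_, ?_, ?_⟩
  · rw [hcoeff']
    have h1 : (finite_mon (F := F) 0).toFinset = {1} := by
      ext g
      rw [Set.Finite.mem_toFinset, Finset.mem_singleton]
      constructor
      · rintro ⟨h2, h3⟩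
        exact (show g.Monic from h2).natDegree_eq_zero.1 h3
      · rintro rfl
        exact ⟨monic_one, natDegree_one⟩
    unfold monSum
    rw [h1, Finset.sum_singleton, psiG_one]
  · have hE := fibG_eq (R := R) χ (1 : F) b m'
    rw [← hψ, ← hch, C_1, one_mul] at hE
    have h4 : PowerSeries.mk (monSum (psiG ψ ch b m')) =
        ((∑ i ∈ Finset.range (r + 1), C (monSum (psiG ψ ch b m') i) * X ^ i : R[X]) :
          PowerSeries R) := by
      ext j
      rw [PowerSeries.coeff_mk, Polynomial.coeff_coe, hcoeff']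
    rw [← h4]
    exact hE
  · ext j
    rw [coeff_map, coeff_map, hcoeff']
    exact hred j

end Pool.Agent.Y151.Ten
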